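import Pool.Agent.Q45.RD.Pla
import Pool.Agent.Q164.RD.Orth

/-!
# The algebra generated by a congruence subgroup of the orthogonal group
-/

set_option autoImplicit false
set_option linter.all false

open Module
open scoped Classical

namespace Pool.Agent.Q45.SM

variable {V : Type} [AddCommGroup V] [Module ℤ_[2] V] [Module.Finite ℤ_[2] V]
  [Module.Free ℤ_[2] V]

/-- The operator `x ↦ β(v, x) w`. -/
noncomputable def ee (β : V →ₗ[ℤ_[2]] V →ₗ[ℤ_[2]] ℤ_[2]) (v w : V) : End ℤ_[2] V :=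
  (β v).smulRight w

theorem ee_apply (β : V →ₗ[ℤ_[2]] V →ₗ[ℤ_[2]] ℤ_[2]) (v w x : V) : ee β v w x = β v x • w := rfl

/-- `c • φ` is in the algebra for some `c ≠ 0`. -/
def Sat (A : Subalgebra ℤ_[2] (End ℤ_[2] V)) (φ : End ℤ_[2] V) : Prop :=
  ∃ c : ℤ_[2], c ≠ 0 ∧ c • φ ∈ A

theorem Sat.add {A : Subalgebra ℤ_[2] (End ℤ_[2] V)} {φ ψ : End ℤ_[2] V} (h : Sat A φ)
    (h' : Sat A ψ) : Sat A (φ + ψ) := by
  obtain ⟨c, hc, h⟩ := h
  obtain ⟨c', hc', h'⟩ := h'
  refine ⟨c * c', mul_ne_zero hc hc', ?_⟩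
  have h1 : (c * c') • (φ + ψ) = c' • (c • φ) + c • (c' • ψ) := by
    rw [smul_add, smul_smul, smul_smul, mul_comm c c']
  rw [h1]
  exact A.add_mem (A.smul_mem h c') (A.smul_mem h' c)

theorem Sat.mul {A : Subalgebra ℤ_[2] (End ℤ_[2] V)} {φ ψ : End ℤ_[2] V} (h : Sat A φ)
    (h' : Sat A ψ) : Sat A (φ * ψ) := by
  obtain ⟨c, hc, h⟩ := h
  obtain ⟨c', hc', h'⟩ := h'
  refine ⟨c * c', mul_ne_zero hc hc', ?_⟩
  have h1 : (c * c') • (φ * ψ) = (c • φ) * (c' • ψ) := by
    rw [smul_mul_smul_comm]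
  rw [h1]
  exact A.mul_mem h h'

theorem Sat.smul {A : Subalgebra ℤ_[2] (End ℤ_[2] V)} {φ : End ℤ_[2] V} (h : Sat A φ)
    (c : ℤ_[2]) : Sat A (c • φ) := by
  obtain ⟨c', hc', h'⟩ := h
  exact ⟨c', hc', by rw [smul_comm]; exact A.smul_mem h' c⟩

theorem Sat.of_smul {A : Subalgebra ℤ_[2] (End ℤ_[2] V)} {φ : End ℤ_[2] V} {c : ℤ_[2]}
    (hc : c ≠ 0) (h : Sat A (c • φ)) : Sat A φ := by
  obtain ⟨c', hc', h'⟩ := h
  exact ⟨c' * c, mul_ne_zero hc' hc, by rw [mul_smul]; exact h'⟩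

theorem Sat.sum {A : Subalgebra ℤ_[2] (End ℤ_[2] V)} {ι : Type} (s : Finset ι)
    (f : ι → End ℤ_[2] V) (h : ∀ i ∈ s, Sat A (f i)) : Sat A (∑ i ∈ s, f i) := by
  induction s using Finset.induction_on with
  | empty => exact ⟨1, one_ne_zero, by rw [Finset.sum_empty, smul_zero]; exact A.zero_mem⟩
  | insert a s ha ih =>
    rw [Finset.sum_insert ha]
    exact (h a (Finset.mem_insert_self a s)).add (ih fun i hi => h i (Finset.mem_insert_of_mem hi))

theorem ee_mul (β : V →ₗ[ℤ_[2]] V →ₗ[ℤ_[2]] ℤ_[2]) (a b c d : V) :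
    ee β a b * ee β c d = β a d • ee β c b := by
  refine LinearMap.ext fun x => ?_
  rw [Module.End.mul_apply, ee_apply, ee_apply, map_smul, smul_eq_mul, LinearMap.smul_apply, ee_apply,
    smul_smul, mul_comm]

/-- The skew operators of the planes are in the algebra. -/
theorem sat_skew (β : V →ₗ[ℤ_[2]] V →ₗ[ℤ_[2]] ℤ_[2]) (hsym : ∀ x y, β x y = β y x) {j : ℕ}
    (A : Subalgebra ℤ_[2] (End ℤ_[2] V))
    (hA : ∀ α : V ≃ₗ[ℤ_[2]] V, (∀ x y, β (α x) (α y) = β x y) →
      (∀ v, ∃ v', α v - v = (2 : ℤ_[2]) ^ j • v') → (α : V →ₗ[ℤ_[2]] V) ∈ A)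
    {v w : V} (h0 : β v w = 0) : Sat A (ee β v w - ee β w v) := by
  set S : End ℤ_[2] V := ee β v w - ee β w v with hS
  have hSa : ∀ x, S x = β v x • w - β w x • v := fun x => rfl
  have h0' : β w v = 0 := by rw [hsym, h0]
  set e : ℕ := j + 1 with he
  set t : ℤ_[2] := (2 : ℤ_[2]) ^ e with ht
  have hskew : ∀ x y, β (S x) y = -β x (S y) := by
    intro x y
    rw [hSa, hSa]
    simp only [map_sub, map_smul, LinearMap.sub_apply, LinearMap.smul_apply, smul_eq_mul]
    rw [hsym x w, hsym x v]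
    ring
  set δ : ℤ_[2] := β v v * β w w with hδ
  have hS3 : ∀ x, S (S (S x)) = -(δ • S x) := by
    intro x
    have h1 : S v = β v v • w := by rw [hSa, h0', zero_smul, sub_zero]
    have h2 : S w = -(β w w • v) := by rw [hSa, h0, zero_smul, zero_sub]
    have h3 : S (S x) = -((β v x * β w w) • v) - (β w x * β v v) • w := by
      rw [hSa x, map_sub, map_smul, map_smul, h1, h2, smul_neg, smul_smul, smul_smul]
    rw [h3, map_sub, map_neg, map_smul, map_smul, h1, h2, hSa x, hδ]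
    module
  have key : ∀ s : ℤ_[2], (s = t ∨ s = -t) → ∃ α : V →ₗ[ℤ_[2]] V, α ∈ A ∧
      ∀ x, (1 + t ^ 2 * δ) • (α x - x) = (2 * s) • S x + (2 * s ^ 2) • S (S x) := by
    intro s hs
    have hs2 : s ^ 2 = t ^ 2 := by rcases hs with h | h <;> rw [h]; ring
    have hsd : ∀ v, ∃ v', (s • S) v = (2 : ℤ_[2]) ^ e • v' := by
      intro v
      rcases hs with h | h
      · exact ⟨S v, by rw [h]; rfl⟩
      · exact ⟨-S v, by rw [h, LinearMap.smul_apply, neg_smul, smul_neg]⟩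
    obtain ⟨α, h1, h2, h3, -⟩ := Pool.Agent.Q45.RD.cayley_of β (s • S) (fun x y => by
      rw [LinearMap.smul_apply, LinearMap.smul_apply, map_smul, LinearMap.smul_apply, map_smul,
        hskew, smul_neg]) (e := e) (by omega) hsd
    refine ⟨α, hA α h1 (fun v => ?_), fun x => ?_⟩
    · obtain ⟨v', hv'⟩ := h2 v
      exact ⟨(2 : ℤ_[2]) • v', by rw [hv', he, pow_succ, mul_smul]⟩
    · have h6 : ∀ y, (s • S) y = s • S y := fun y => rfl
      have h4 := h3 ((1 + t ^ 2 * δ) • x + s • S x + s ^ 2 • S (S x))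
      rw [h6, map_add S, map_add S, map_smul S, map_smul S, map_smul S, hS3] at h4
      have h5 : (1 + t ^ 2 * δ) • x + s • S x + s ^ 2 • S (S x) -
          s • ((1 + t ^ 2 * δ) • S x + s • S (S x) + s ^ 2 • -(δ • S x)) = (1 + t ^ 2 * δ) • x := by
        rw [← hs2]
        module
      rw [h5, map_smul] at h4
      show (1 + t ^ 2 * δ) • (α x - x) = _
      rw [smul_sub, h4, ← hs2]
      module
  obtain ⟨α, hα, hα'⟩ := key t (Or.inl rfl)
  obtain ⟨α₁, hα₁, hα₁'⟩ := key (-t) (Or.inr rfl)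
  have ht0 : t ≠ 0 := pow_ne_zero _ two_ne_zero
  refine ⟨4 * t, mul_ne_zero (by norm_num) ht0, ?_⟩
  have h1 : (4 * t) • S = (1 + t ^ 2 * δ) • (α - α₁) := by
    refine LinearMap.ext fun x => ?_
    have h2 := hα' x
    have h3 := hα₁' x
    show (4 * t) • S x = (1 + t ^ 2 * δ) • (α x - α₁ x)
    have h4 : (1 + t ^ 2 * δ) • (α x - α₁ x) =
        (1 + t ^ 2 * δ) • (α x - x) - (1 + t ^ 2 * δ) • (α₁ x - x) := by
      rw [← smul_sub]
      congr 1
      abel
    rw [h4, h2, h3]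
    module
  rw [h1]
  exact A.smul_mem (A.sub_mem hα hα₁) _

/-- The algebra which is generated by the isometries which are congruent to one contains all the operators
up to constants. -/
theorem sat_all (β : V →ₗ[ℤ_[2]] V →ₗ[ℤ_[2]] ℤ_[2]) (hsym : ∀ x y, β x y = β y x)
    (hnd : ∀ x, (∀ y, β x y = 0) → x = 0) (h3 : 3 ≤ finrank ℤ_[2] V) {j : ℕ}
    (A : Subalgebra ℤ_[2] (End ℤ_[2] V))
    (hA : ∀ α : V ≃ₗ[ℤ_[2]] V, (∀ x y, β (α x) (α y) = β x y) →
      (∀ v, ∃ v', α v - v = (2 : ℤ_[2]) ^ j • v') → (α : V →ₗ[ℤ_[2]] V) ∈ A)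
    (φ : End ℤ_[2] V) : Sat A φ := by
  obtain ⟨v, D, hD, hv, hvv, hdec⟩ := Pool.Agent.Q164.RD.ORTH.main V β hsym hnd
  have hS : ∀ i k, i ≠ k → Sat A (ee β (v i) (v k) - ee β (v k) (v i)) := fun i k h =>
    sat_skew β hsym A hA (hv i k h)
  have hE1 : ∀ i k, i ≠ k → Sat A (ee β (v i) (v k)) := by
    intro i k hik
    obtain ⟨l, hl⟩ : ∃ l : Fin (finrank ℤ_[2] V), l ∉ ({i, k} : Finset _) := by
      by_contra hcon
      push Not at hcon
      have h1 : (Finset.univ : Finset (Fin (finrank ℤ_[2] V))) ⊆ {i, k} := fun x _ => hcon x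
      have h2 := Finset.card_le_card h1
      rw [Finset.card_univ, Fintype.card_fin] at h2
      have h4 : ({i, k} : Finset (Fin (finrank ℤ_[2] V))).card ≤ 2 := Finset.card_le_two
      omega
    rw [Finset.mem_insert, Finset.mem_singleton, not_or] at hl
    have h1 := (hS l k hl.2).mul (hS i l (Ne.symm hl.1))
    have h2 : (ee β (v l) (v k) - ee β (v k) (v l)) * (ee β (v i) (v l) - ee β (v l) (v i)) =
        β (v l) (v l) • ee β (v i) (v k) := by
      rw [sub_mul, mul_sub, mul_sub, ee_mul, ee_mul, ee_mul, ee_mul, hv l i hl.1,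
        hv k l (Ne.symm hl.2), hv k i (Ne.symm hik), zero_smul, zero_smul, zero_smul, sub_zero,
        sub_zero, sub_zero]
    rw [h2] at h1
    exact h1.of_smul (hvv l)
  have hE : ∀ i k, Sat A (ee β (v i) (v k)) := by
    intro i k
    by_cases hik : i = k
    · subst hik
      obtain ⟨l, hl⟩ : ∃ l : Fin (finrank ℤ_[2] V), l ≠ i := by
        by_contra hcon
        push Not at hcon
        have h1 : (Finset.univ : Finset (Fin (finrank ℤ_[2] V))) ⊆ {i} := fun x _ =>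
          Finset.mem_singleton.2 (hcon x)
        have h2 := Finset.card_le_card h1
        rw [Finset.card_univ, Fintype.card_fin, Finset.card_singleton] at h2
        omega
      have h1 := (hE1 l i hl).mul (hE1 i l (Ne.symm hl))
      rw [ee_mul] at h1
      exact h1.of_smul (hvv l)
    · exact hE1 i k hik
  choose a ha using hdec
  -- a multiple of the identity
  have hda : ∀ x i, D * β (v i) x = a x i * β (v i) (v i) := by
    intro x i
    have h1 := congrArg (fun y => β (v i) y) (ha x)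
    simp only [map_smul, map_sum, smul_eq_mul] at h1
    rw [h1, Finset.sum_eq_single i]
    · intro l _ hl
      rw [hv i l (Ne.symm hl), mul_zero]
    · intro h
      exact absurd (Finset.mem_univ i) h
  set δ : ℤ_[2] := ∏ i, β (v i) (v i) with hδ
  have hδ0 : δ ≠ 0 := Finset.prod_ne_zero_iff.2 fun i _ => hvv i
  have hdv : ∀ i, ∃ c, c * β (v i) (v i) = δ := fun i => by
    obtain ⟨c, hc⟩ := Finset.dvd_prod_of_mem (fun i => β (v i) (v i)) (Finset.mem_univ i)
    exact ⟨c, by rw [hδ, hc, mul_comm]⟩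
  choose c hc using hdv
  have hx : ∀ x, (D * δ) • x = ∑ i, (D * c i * β (v i) x) • v i := by
    intro x
    rw [mul_comm, mul_smul, ha x, Finset.smul_sum]
    refine Finset.sum_congr rfl fun i _ => ?_
    rw [smul_smul, ← hc i, mul_assoc, mul_comm (β (v i) (v i)), ← hda]
    congr 1
    ring
  have hφ : (D * (D * δ)) • φ = ∑ i, ∑ l, (D * c i * a (φ (v i)) l) • ee β (v i) (v l) := by
    refine LinearMap.ext fun x => ?_
    rw [LinearMap.smul_apply, mul_smul, ← map_smul φ, hx, map_sum, Finset.smul_sum,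
      LinearMap.sum_apply]
    refine Finset.sum_congr rfl fun i _ => ?_
    rw [map_smul, smul_comm, ha (φ (v i)), Finset.smul_sum, LinearMap.sum_apply]
    refine Finset.sum_congr rfl fun l _ => ?_
    rw [LinearMap.smul_apply, ee_apply, smul_smul, smul_smul]
    congr 1
    ring
  have h4 : Sat A ((D * (D * δ)) • φ) := by
    rw [hφ]
    exact Sat.sum _ _ fun i _ => Sat.sum _ _ fun l _ => (hE i l).smul _
  exact h4.of_smul (mul_ne_zero hD (mul_ne_zero hD hδ0))

end Pool.Agent.Q45.SM
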