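import Pool.Agent.Q45.SM.Ten

/-!
# Semisimplicity of a tensor product with any representation
-/

set_option autoImplicit false
set_option linter.all false

open Module TensorProduct
open scoped Classical

namespace Pool.Agent.Q45.SM

variable {V N : Type} [AddCommGroup V] [Module ℤ_[2] V] [Module.Finite ℤ_[2] V]
  [Module.Free ℤ_[2] V] [AddCommGroup N] [Module ℤ_[2] N] [Module.Finite ℤ_[2] N]
  [Module.Free ℤ_[2] N]

theorem range_eq (N' : Submodule ℤ_[2] N) :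
    LinearMap.range (LinearMap.lTensor V N'.subtype) = part V N' := by
  apply le_antisymm
  · rintro _ ⟨u, rfl⟩
    induction u using TensorProduct.induction_on with
    | zero =>
      rw [map_zero]
      exact Submodule.zero_mem _
    | tmul x y =>
      rw [LinearMap.lTensor_tmul]
      exact Submodule.subset_span ⟨x, _, y.2, rfl⟩
    | add a b ha hb =>
      rw [map_add]
      exact Submodule.add_mem _ ha hb
  · refine Submodule.span_le.2 ?_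
    rintro _ ⟨x, y, hy, rfl⟩
    exact ⟨x ⊗ₜ[ℤ_[2]] ⟨y, hy⟩, rfl⟩

theorem tmul_eq_zero_of {f : V →ₗ[ℤ_[2]] ℤ_[2]} {x : V} (hf : f x = 1) {y : N}
    (h : x ⊗ₜ[ℤ_[2]] y = 0) : y = 0 := by
  have h1 := con_tmul f x y
  rw [h, map_zero, hf, one_smul] at h1
  exact h1.symm

variable {G : Type} [Group G] (ρ : G →* End ℤ_[2] V) (ν : G →* End ℤ_[2] N)
  (β : V →ₗ[ℤ_[2]] V →ₗ[ℤ_[2]] ℤ_[2]) (hsym : ∀ x y, β x y = β y x)
  (hnd : ∀ x, (∀ y, β x y = 0) → x = 0) (h3 : 3 ≤ finrank ℤ_[2] V) {P : Subgroup G}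

include hsym hnd h3

/-- The stable submodules come from `N`. -/
theorem exists_part (hap : Approx ρ ν β P) {U : Submodule ℤ_[2] (V ⊗[ℤ_[2]] N)}
    (hU : Stb ρ ν P U) : ∃ N' : Submodule ℤ_[2] N, (∀ g ∈ P, ∀ y ∈ N', ν g y ∈ N') ∧
      U ≤ part V N' ∧ ∃ r : ℕ, ∀ u ∈ part V N', (2 : ℤ_[2]) ^ r • u ∈ U :=
  ⟨low U, low_stable ρ ν hU, le_part ρ ν β hsym hnd h3 hap hU, low_part U⟩

/-- The semisimplicity. -/
theorem semi_iff (hap : Approx ρ ν β P) :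
    (∀ U : Submodule ℤ_[2] (V ⊗[ℤ_[2]] N), Stb ρ ν P U → ∃ U', Stb ρ ν P U' ∧ U ⊓ U' = ⊥ ∧
      ∃ r : ℕ, ∀ x, (2 : ℤ_[2]) ^ r • x ∈ U ⊔ U') ↔
    (∀ N₁ : Submodule ℤ_[2] N, (∀ g ∈ P, ∀ y ∈ N₁, ν g y ∈ N₁) → ∃ N₂ : Submodule ℤ_[2] N,
      (∀ g ∈ P, ∀ y ∈ N₂, ν g y ∈ N₂) ∧ N₁ ⊓ N₂ = ⊥ ∧ ∃ r : ℕ, ∀ x, (2 : ℤ_[2]) ^ r • x ∈ N₁ ⊔ N₂) := by
  let b := Module.finBasis ℤ_[2] V
  let i0 : Fin (finrank ℤ_[2] V) := ⟨0, by omega⟩
  have hb : b.coord i0 (b i0) = 1 := by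
    rw [Basis.coord_apply, Basis.repr_self, Finsupp.single_eq_same]
  constructor
  · intro h N₁ hN₁
    obtain ⟨U', hU', hint, r, hr⟩ := h (part V N₁) (part_stable ρ ν hN₁)
    refine ⟨low U', low_stable ρ ν hU', ?_, r, fun y => ?_⟩
    · rw [eq_bot_iff]
      rintro y ⟨hy1, c, hc, hy2⟩
      rw [Submodule.mem_bot]
      have h1 : c • (b i0 ⊗ₜ[ℤ_[2]] y) ∈ part V N₁ ⊓ U' :=
        ⟨(part V N₁).smul_mem c (Submodule.subset_span ⟨_, y, hy1, rfl⟩), hy2 (b i0)⟩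
      rw [hint, Submodule.mem_bot, ← TensorProduct.tmul_smul] at h1
      exact (smul_eq_zero.1 (tmul_eq_zero_of hb h1)).resolve_left hc
    · obtain ⟨u, hu, u', hu', h1⟩ := Submodule.mem_sup.1 (hr (b i0 ⊗ₜ[ℤ_[2]] y))
      have h2 := congrArg (fun w => con (b.coord i0) w) h1
      simp only [map_add, map_smul, con_tmul, hb, one_smul] at h2
      rw [← h2]
      refine Submodule.add_mem_sup (con_part N₁ _ hu) ?_
      exact mem_part.1 (le_part ρ ν β hsym hnd h3 hap hU' hu') _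
  · intro h U hU
    obtain ⟨N₂, hN₂, hint, r, hr⟩ := h (low U) (low_stable ρ ν hU)
    obtain ⟨s, hs⟩ := low_part U
    refine ⟨part V N₂, part_stable ρ ν hN₂, ?_, s + r, fun w => ?_⟩
    · rw [eq_bot_iff]
      rintro u ⟨hu1, hu2⟩
      rw [Submodule.mem_bot, expand b u]
      refine Finset.sum_eq_zero fun i _ => ?_
      have h1 : con (b.coord i) u ∈ low U ⊓ N₂ :=
        ⟨mem_part.1 (le_part ρ ν β hsym hnd h3 hap hU hu1) _, mem_part.1 hu2 _⟩
      rw [hint, Submodule.mem_bot] at h1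
      rw [h1, TensorProduct.tmul_zero]
    · induction w using TensorProduct.induction_on with
      | zero =>
        rw [smul_zero]
        exact Submodule.zero_mem _
      | tmul x y =>
        obtain ⟨y1, hy1, y2, hy2, h1⟩ := Submodule.mem_sup.1 (hr y)
        have h2 : (2 : ℤ_[2]) ^ (s + r) • (x ⊗ₜ[ℤ_[2]] y) =
            (2 : ℤ_[2]) ^ s • (x ⊗ₜ[ℤ_[2]] y1) + (2 : ℤ_[2]) ^ s • (x ⊗ₜ[ℤ_[2]] y2) := by
          rw [← smul_add, ← TensorProduct.tmul_add, h1, TensorProduct.tmul_smul, smul_smul, pow_add]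
        rw [h2]
        refine Submodule.add_mem_sup (hs _ (Submodule.subset_span ⟨x, y1, hy1, rfl⟩)) ?_
        exact Submodule.smul_mem _ _ (Submodule.subset_span ⟨x, y2, hy2, rfl⟩)
      | add a b ha hb =>
        rw [smul_add]
        exact Submodule.add_mem _ ha hb

end Pool.Agent.Q45.SM
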