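import Pool.Agent.Q45.AP.Evn
import Pool.Agent.Q45.SM.Sem

/-!
# The rank is at least three, and the fixed vectors in quotients
-/

set_option autoImplicit false
set_option linter.all false

open Module TensorProduct
open scoped Classical

namespace Pool.Agent.Q45.SM

open Pool.Agent.Q45.OI

section one

variable {M V : Type} [AddCommGroup M] [Module ℤ_[2] M] [Module.Free ℤ_[2] M]
  [Module.Finite ℤ_[2] M] [AddCommGroup V] [Module (ZMod 2) V] [Module.Finite (ZMod 2) V]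
  {κ : M →+ V} {H : Subgroup (End ℤ_[2] M)ˣ} {Γ : Subgroup (V ≃ₗ[ZMod 2] V)}

theorem Dat.three (h : Dat M V κ H Γ) (hV : 8 ≤ Nat.card V) : 3 ≤ finrank ℤ_[2] M := by
  have hks : ∀ (c : ℤ_[2]) (m : M), κ (c • m) = PadicInt.toZMod c • κ m := by
    intro c m
    have h1 : c = c - ((PadicInt.toZMod c).val : ℤ_[2]) + ((PadicInt.toZMod c).val : ℤ_[2]) := by ring
    have h2 : PadicInt.toZMod (c - ((PadicInt.toZMod c).val : ℤ_[2])) = 0 := by
      rw [map_sub, map_natCast, ZMod.natCast_zmod_val, sub_self]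
    obtain ⟨d, hd⟩ := (tz_zero_iff _).1 h2
    have h3 : c • m = (2 : ℤ_[2]) • (d • m) + (PadicInt.toZMod c).val • m := by
      conv_lhs => rw [h1, hd, add_smul, mul_smul, Nat.cast_smul_eq_nsmul]
    have h4 : κ ((2 : ℤ_[2]) • (d • m)) = 0 := (h.ker _).2 ⟨_, rfl⟩
    rw [h3, map_add, h4, zero_add, map_nsmul]
    generalize PadicInt.toZMod c = e
    fin_cases e
    · exact (zero_nsmul _).trans (zero_smul (ZMod 2) _).symm
    · exact (one_nsmul _).trans (one_smul (ZMod 2) _).symm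
  let b := finBasis ℤ_[2] M
  have hsurj : Function.Surjective fun c : Fin (finrank ℤ_[2] M) → ZMod 2 => ∑ i, c i • κ (b i) := by
    intro v
    obtain ⟨m, rfl⟩ := h.surj v
    refine ⟨fun i => PadicInt.toZMod (b.repr m i), ?_⟩
    show ∑ i, PadicInt.toZMod (b.repr m i) • κ (b i) = κ m
    conv_rhs => rw [← b.sum_repr m, map_sum]
    exact Finset.sum_congr rfl fun i _ => (hks _ _).symm
  have h1 := Nat.card_le_card_of_surjective _ hsurj
  rw [Nat.card_pi, Finset.prod_const, Finset.card_univ, Fintype.card_fin, Nat.card_zmod] at h1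
  by_contra hcon
  have h2 : finrank ℤ_[2] M ≤ 2 := by omega
  have h3 : 2 ^ finrank ℤ_[2] M ≤ 2 ^ 2 := Nat.pow_le_pow_right (by norm_num) h2
  omega

end one

section multi

variable {ι : Type} [Fintype ι] {M V : ι → Type} [∀ i, AddCommGroup (M i)]
  [∀ i, Module ℤ_[2] (M i)] [∀ i, Module.Free ℤ_[2] (M i)] [∀ i, Module.Finite ℤ_[2] (M i)]
  [∀ i, AddCommGroup (V i)] [∀ i, Module (ZMod 2) (V i)] [∀ i, Module.Finite (ZMod 2) (V i)]
  {N : Type} [AddCommGroup N] [Module ℤ_[2] N] [Module.Free ℤ_[2] N] [Module.Finite ℤ_[2] N]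
  {G : Type} [Group G]
  {ρ : ∀ i, G →* (End ℤ_[2] (M i))ˣ} {ν : G →* (End ℤ_[2] N)ˣ} {κ : ∀ i, M i →+ V i}
  {act : ∀ i, G →* (V i ≃ₗ[ZMod 2] V i)} {β : ∀ i, M i →ₗ[ℤ_[2]] M i →ₗ[ℤ_[2]] ℤ_[2]}

theorem FamN.three (h : FamN ρ ν κ act β) (i : ι) : 3 ≤ finrank ℤ_[2] (M i) :=
  Dat.three (h.blk i).dat (h.card i)

end multi

section fix

variable {V N : Type} [AddCommGroup V] [Module ℤ_[2] V] [Module.Finite ℤ_[2] V]
  [Module.Free ℤ_[2] V] [AddCommGroup N] [Module ℤ_[2] N] [Module.Finite ℤ_[2] N]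
  [Module.Free ℤ_[2] N]

/-- The operators of the planes, more precisely. -/
theorem skew_eq (β : V →ₗ[ℤ_[2]] V →ₗ[ℤ_[2]] ℤ_[2]) (hsym : ∀ x y, β x y = β y x) (j : ℕ)
    {v w : V} (h0 : β v w = 0) : ∃ (α α₁ : V ≃ₗ[ℤ_[2]] V) (c d : ℤ_[2]), c ≠ 0 ∧
      (∀ x y, β (α x) (α y) = β x y) ∧ (∀ v, ∃ v', α v - v = (2 : ℤ_[2]) ^ j • v') ∧
      (∀ x y, β (α₁ x) (α₁ y) = β x y) ∧ (∀ v, ∃ v', α₁ v - v = (2 : ℤ_[2]) ^ j • v') ∧
      ∀ x, c • (β v x • w - β w x • v) = d • (α x - α₁ x) := by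
  set S : End ℤ_[2] V := ee β v w - ee β w v with hS
  have hSa : ∀ x, S x = β v x • w - β w x • v := fun x => rfl
  have h0' : β w v = 0 := by rw [hsym, h0]
  set e : ℕ := j + 1 with he
  set t : ℤ_[2] := (2 : ℤ_[2]) ^ e with ht
  have hskew : ∀ x y, β (S x) y = -β x (S y) := by
    intro x y
    rw [hSa, hSa]
    simp only [map_sub, map_smul, LinearMap.sub_apply, LinearMap.smul_apply, smul_eq_mul]
    rw [hsym x w, hsym x v]
    ring
  set δ : ℤ_[2] := β v v * β w w with hδ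
  have hS3 : ∀ x, S (S (S x)) = -(δ • S x) := by
    intro x
    have h1 : S v = β v v • w := by rw [hSa, h0', zero_smul, sub_zero]
    have h2 : S w = -(β w w • v) := by rw [hSa, h0, zero_smul, zero_sub]
    have h3 : S (S x) = -((β v x * β w w) • v) - (β w x * β v v) • w := by
      rw [hSa x, map_sub, map_smul, map_smul, h1, h2, smul_neg, smul_smul, smul_smul]
    rw [h3, map_sub, map_neg, map_smul, map_smul, h1, h2, hSa x, hδ]
    module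
  have key : ∀ s : ℤ_[2], (s = t ∨ s = -t) → ∃ α : V ≃ₗ[ℤ_[2]] V,
      (∀ x y, β (α x) (α y) = β x y) ∧ (∀ v, ∃ v', α v - v = (2 : ℤ_[2]) ^ j • v') ∧
      ∀ x, (1 + t ^ 2 * δ) • (α x - x) = (2 * s) • S x + (2 * s ^ 2) • S (S x) := by
    intro s hs
    have hs2 : s ^ 2 = t ^ 2 := by rcases hs with h | h <;> rw [h]; ring
    have hsd : ∀ v, ∃ v', (s • S) v = (2 : ℤ_[2]) ^ e • v' := by
      intro v
      rcases hs with h | h
      · exact ⟨S v, by rw [h]; rfl⟩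
      · exact ⟨-S v, by rw [h, LinearMap.smul_apply, neg_smul, smul_neg]⟩
    obtain ⟨α, h1, h2, h3, -⟩ := Pool.Agent.Q45.RD.cayley_of β (s • S) (fun x y => by
      rw [LinearMap.smul_apply, LinearMap.smul_apply, map_smul, LinearMap.smul_apply, map_smul,
        hskew, smul_neg]) (e := e) (by omega) hsd
    refine ⟨α, h1, fun v => ?_, fun x => ?_⟩
    · obtain ⟨v', hv'⟩ := h2 v
      exact ⟨(2 : ℤ_[2]) • v', by rw [hv', he, pow_succ, mul_smul]⟩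
    · have h6 : ∀ y, (s • S) y = s • S y := fun y => rfl
      have h4 := h3 ((1 + t ^ 2 * δ) • x + s • S x + s ^ 2 • S (S x))
      rw [h6, map_add S, map_add S, map_smul S, map_smul S, map_smul S, hS3] at h4
      have h5 : (1 + t ^ 2 * δ) • x + s • S x + s ^ 2 • S (S x) -
          s • ((1 + t ^ 2 * δ) • S x + s • S (S x) + s ^ 2 • -(δ • S x)) = (1 + t ^ 2 * δ) • x := by
        rw [← hs2]
        module
      rw [h5, map_smul] at h4
      rw [smul_sub, h4, ← hs2]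
      module
  obtain ⟨α, hα, hα1, hα'⟩ := key t (Or.inl rfl)
  obtain ⟨α₁, hα₁, hα₁1, hα₁'⟩ := key (-t) (Or.inr rfl)
  have ht0 : t ≠ 0 := pow_ne_zero _ two_ne_zero
  refine ⟨α, α₁, 4 * t, 1 + t ^ 2 * δ, mul_ne_zero (by norm_num) ht0, hα, hα1, hα₁, hα₁1, fun x => ?_⟩
  have h2 := hα' x
  have h3 := hα₁' x
  show (4 * t) • S x = (1 + t ^ 2 * δ) • (α x - α₁ x)
  have h4 : (1 + t ^ 2 * δ) • (α x - α₁ x) =
      (1 + t ^ 2 * δ) • (α x - x) - (1 + t ^ 2 * δ) • (α₁ x - x) := by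
    rw [← smul_sub]
    congr 1
    abel
  rw [h4, h2, h3]
  module

theorem op_add (φ ψ : End ℤ_[2] V) (u : V ⊗[ℤ_[2]] N) : op (φ + ψ) u = op φ u + op ψ u := by
  unfold op
  rw [TensorProduct.map_add_left]
  rfl

theorem op_smul (c : ℤ_[2]) (φ : End ℤ_[2] V) (u : V ⊗[ℤ_[2]] N) : op (c • φ) u = c • op φ u := by
  unfold op
  rw [TensorProduct.map_smul_left]
  rfl

theorem op_mul (φ ψ : End ℤ_[2] V) (u : V ⊗[ℤ_[2]] N) : op (φ * ψ) u = op φ (op ψ u) := by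
  unfold op
  rw [← LinearMap.comp_apply, ← TensorProduct.map_comp]
  rfl

theorem op_sum {κ : Type} (s : Finset κ) (f : κ → End ℤ_[2] V) (u : V ⊗[ℤ_[2]] N) :
    op (∑ i ∈ s, f i) u = ∑ i ∈ s, op (f i) u := by
  induction s using Finset.induction_on with
  | empty =>
    rw [Finset.sum_empty, Finset.sum_empty]
    have h := op_smul (0 : ℤ_[2]) (0 : End ℤ_[2] V) u
    rwa [zero_smul, zero_smul] at h
  | insert a s ha ih => rw [Finset.sum_insert ha, Finset.sum_insert ha, op_add, ih]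

variable {G : Type} [Group G] (ρ : G →* End ℤ_[2] V) (ν : G →* End ℤ_[2] N)
  (β : V →ₗ[ℤ_[2]] V →ₗ[ℤ_[2]] ℤ_[2]) (hsym : ∀ x y, β x y = β y x)
  (hnd : ∀ x, (∀ y, β x y = 0) → x = 0) (h3 : 3 ≤ finrank ℤ_[2] V) {P : Subgroup G}

include hsym hnd h3

/-- No vector of a quotient of `V ⊗ N` different from zero is fixed by the isometries. -/
theorem fix_core (hap' : Approx ρ ν β P) {U : Submodule ℤ_[2] (V ⊗[ℤ_[2]] N)} (hU : Stb ρ ν P U)
    {w : V ⊗[ℤ_[2]] N} {j : ℕ} (hαw : ∀ α : V ≃ₗ[ℤ_[2]] V, (∀ x y, β (α x) (α y) = β x y) →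
      (∀ m, ∃ m', α m - m = (2 : ℤ_[2]) ^ j • m') → op (α : V →ₗ[ℤ_[2]] V) w - w ∈ U) :
    ∃ r : ℕ, (2 : ℤ_[2]) ^ r • w ∈ U := by
  obtain ⟨v, D, hD, hv, hvv, hdec⟩ := Pool.Agent.Q164.RD.ORTH.main V β hsym hnd
  have hE : ∀ i, ∃ c : ℤ_[2], c ≠ 0 ∧ c • op (ee β (v i) (v i)) w ∈ U := by
    intro i
    obtain ⟨k, hk⟩ : ∃ k : Fin (finrank ℤ_[2] V), k ≠ i := by
      by_contra hcon
      push Not at hcon
      have h1 : (Finset.univ : Finset (Fin (finrank ℤ_[2] V))) ⊆ {i} := fun x _ =>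
        Finset.mem_singleton.2 (hcon x)
      have h2 := Finset.card_le_card h1
      rw [Finset.card_univ, Fintype.card_fin, Finset.card_singleton] at h2
      omega
    obtain ⟨α, α₁, c, d, hc, h1, h2, h4, h5, h6⟩ := skew_eq β hsym j (hv i k (Ne.symm hk))
    have h7 : c • (ee β (v i) (v k) - ee β (v k) (v i)) =
        d • ((α : V →ₗ[ℤ_[2]] V) + (-1 : ℤ_[2]) • (α₁ : V →ₗ[ℤ_[2]] V)) := by
      refine LinearMap.ext fun x => ?_
      refine (h6 x).trans ?_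
      rw [sub_eq_add_neg, ← neg_one_smul ℤ_[2] (α₁ x)]
      rfl
    have h8 : c • op (ee β (v i) (v k) - ee β (v k) (v i)) w ∈ U := by
      rw [← op_smul, h7, op_smul, op_add, op_smul]
      refine U.smul_mem d ?_
      have h9 : op (α : V →ₗ[ℤ_[2]] V) w + (-1 : ℤ_[2]) • op (α₁ : V →ₗ[ℤ_[2]] V) w =
          (op (α : V →ₗ[ℤ_[2]] V) w - w) - (op (α₁ : V →ₗ[ℤ_[2]] V) w - w) := by
        rw [neg_one_smul]
        abel
      rw [h9]
      exact U.sub_mem (hαw α h1 h2) (hαw α₁ h4 h5)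
    obtain ⟨c', hc', h9⟩ := op_mem ρ ν β hsym hnd h3 hap' hU (ee β (v k) (v i))
    have h10 := h9 _ h8
    have h11 : op (ee β (v k) (v i)) (c • op (ee β (v i) (v k) - ee β (v k) (v i)) w) =
        (c * β (v k) (v k)) • op (ee β (v i) (v i)) w := by
      rw [map_smul, ← op_mul, mul_sub, ee_mul, ee_mul, hv k i hk, zero_smul, sub_zero, op_smul,
        smul_smul]
    rw [h11, smul_smul] at h10
    exact ⟨_, mul_ne_zero hc' (mul_ne_zero hc (hvv k)), h10⟩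
  choose c' hc' hcU using hE
  choose a ha using hdec
  have hda : ∀ x i, D * β (v i) x = a x i * β (v i) (v i) := by
    intro x i
    have h1 := congrArg (fun y => β (v i) y) (ha x)
    simp only [map_smul, map_sum, smul_eq_mul] at h1
    rw [h1, Finset.sum_eq_single i]
    · intro l _ hl
      rw [hv i l (Ne.symm hl), mul_zero]
    · intro h
      exact absurd (Finset.mem_univ i) h
  set δ : ℤ_[2] := ∏ i, β (v i) (v i) with hδ
  have hδ0 : δ ≠ 0 := Finset.prod_ne_zero_iff.2 fun i _ => hvv i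
  have hdv : ∀ i, ∃ c, c * β (v i) (v i) = δ := fun i => by
    obtain ⟨c, hc⟩ := Finset.dvd_prod_of_mem (fun i => β (v i) (v i)) (Finset.mem_univ i)
    exact ⟨c, by rw [hδ, hc, mul_comm]⟩
  choose c hc using hdv
  have hx : algebraMap ℤ_[2] (End ℤ_[2] V) (D * δ) = ∑ i, (D * c i) • ee β (v i) (v i) := by
    refine LinearMap.ext fun x => ?_
    rw [Module.algebraMap_end_apply, LinearMap.sum_apply, mul_comm, mul_smul, ha x, Finset.smul_sum]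
    refine Finset.sum_congr rfl fun i _ => ?_
    rw [LinearMap.smul_apply, ee_apply, smul_smul, smul_smul, ← hc i, mul_assoc,
      mul_comm (β (v i) (v i)), ← hda]
    congr 1
    ring
  have hu : (D * δ) • w = ∑ i, (D * c i) • op (ee β (v i) (v i)) w := by
    rw [← op_scalar, hx, op_sum]
    exact Finset.sum_congr rfl fun i _ => op_smul _ _ _
  have hp : (∏ i, c' i) ≠ 0 := Finset.prod_ne_zero_iff.2 fun i _ => hc' i
  have h12 : ((∏ i, c' i) * (D * δ)) • w ∈ U := by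
    rw [mul_smul, hu, Finset.smul_sum]
    refine Submodule.sum_mem _ fun i _ => ?_
    obtain ⟨d, hd⟩ := Finset.dvd_prod_of_mem c' (Finset.mem_univ i)
    have h13 : (∏ i, c' i) • (D * c i) • op (ee β (v i) (v i)) w =
        (d * (D * c i)) • (c' i • op (ee β (v i) (v i)) w) := by
      rw [hd, smul_smul, smul_smul]
      congr 1
      ring
    rw [h13]
    exact U.smul_mem _ (hcU i)
  obtain ⟨b, r, hr⟩ := Pool.Agent.Q45.RD.exists_unit_pow (mul_ne_zero hp (mul_ne_zero hD hδ0))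
  refine ⟨r, ?_⟩
  rw [← hr, mul_comm, mul_smul]
  exact U.smul_mem b h12

/-- The fixed vectors in the quotients of `(V ⊗ N) × R` come from `R`. -/
theorem fix_prod {R : Type} [AddCommGroup R] [Module ℤ_[2] R] [Module.Finite ℤ_[2] R]
    (μ : G →* End ℤ_[2] R)
    (hap : ∃ j : ℕ, ∀ α : V ≃ₗ[ℤ_[2]] V, (∀ x y, β (α x) (α y) = β x y) →
      (∀ m, ∃ m', α m - m = (2 : ℤ_[2]) ^ j • m') →
      ∀ n, ∃ T ∈ P, (∀ m, ∃ m', ρ T m - α m = (2 : ℤ_[2]) ^ n • m') ∧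
        (∀ y, ∃ z, ν T y - y = (2 : ℤ_[2]) ^ n • z) ∧ ∀ y, ∃ z, μ T y - y = (2 : ℤ_[2]) ^ n • z)
    {S : Submodule ℤ_[2] ((V ⊗[ℤ_[2]] N) × R)}
    (hS : ∀ g ∈ P, ∀ s ∈ S, (TensorProduct.map (ρ g) (ν g) s.1, μ g s.2) ∈ S)
    {w : V ⊗[ℤ_[2]] N} {y : R}
    (hw : ∀ g ∈ P, (TensorProduct.map (ρ g) (ν g) w - w, μ g y - y) ∈ S) :
    ∃ r : ℕ, (2 : ℤ_[2]) ^ r • (w, (0 : R)) ∈ S := by
  obtain ⟨j, hj⟩ := hap
  have hap' : Approx ρ ν β P := ⟨j, fun α hα hα1 n => by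
    obtain ⟨T, hT, h1, h2, -⟩ := hj α hα hα1 n
    exact ⟨T, hT, h1, h2⟩⟩
  let U : Submodule ℤ_[2] (V ⊗[ℤ_[2]] N) := S.comap (LinearMap.inl ℤ_[2] (V ⊗[ℤ_[2]] N) R)
  have hUm : ∀ u, u ∈ U ↔ (u, (0 : R)) ∈ S := fun u => Iff.rfl
  have hU : Stb ρ ν P U := by
    intro g hg u hu
    rw [hUm] at hu ⊢
    have h1 := hS g hg _ hu
    rwa [map_zero] at h1
  obtain ⟨r, hr⟩ := fix_core ρ ν β hsym hnd h3 hap' hU (w := w) (j := j) fun α hα hα1 => by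
    rw [hUm]
    refine mem_of_approx S _ fun n => ?_
    obtain ⟨T, hT, h1, h2, h4⟩ := hj α hα hα1 n
    obtain ⟨z, hz⟩ := close_op ρ ν (α := (α : V →ₗ[ℤ_[2]] V)) h1 h2 w
    obtain ⟨z', hz'⟩ := h4 y
    refine ⟨_, hw T hT, (-z, -z'), ?_⟩
    refine Prod.ext ?_ ?_
    · show op (α : V →ₗ[ℤ_[2]] V) w - w = TensorProduct.map (ρ T) (ν T) w - w + (2 : ℤ_[2]) ^ n • -z
      rw [smul_neg, ← hz]
      abel
    · show (0 : R) = μ T y - y + (2 : ℤ_[2]) ^ n • -z'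
      rw [smul_neg, ← hz']
      abel
  refine ⟨r, ?_⟩
  have h5 := (hUm _).1 hr
  have h6 : (2 : ℤ_[2]) ^ r • (w, (0 : R)) = ((2 : ℤ_[2]) ^ r • w, (0 : R)) := by
    rw [Prod.smul_mk, smul_zero]
  rw [h6]
  exact h5

/-- The stable submodules of `(V ⊗ N) × R` are, up to finite index, products. -/
theorem exists_prod {R : Type} [AddCommGroup R] [Module ℤ_[2] R] [Module.Finite ℤ_[2] R]
    (μ : G →* End ℤ_[2] R)
    (hap : ∃ j : ℕ, ∀ α : V ≃ₗ[ℤ_[2]] V, (∀ x y, β (α x) (α y) = β x y) →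
      (∀ m, ∃ m', α m - m = (2 : ℤ_[2]) ^ j • m') →
      ∀ n, ∃ T ∈ P, (∀ m, ∃ m', ρ T m - α m = (2 : ℤ_[2]) ^ n • m') ∧
        (∀ y, ∃ z, ν T y - y = (2 : ℤ_[2]) ^ n • z) ∧ ∀ y, ∃ z, μ T y - y = (2 : ℤ_[2]) ^ n • z)
    {S : Submodule ℤ_[2] ((V ⊗[ℤ_[2]] N) × R)}
    (hS : ∀ g ∈ P, ∀ s ∈ S, (TensorProduct.map (ρ g) (ν g) s.1, μ g s.2) ∈ S) :
    ∃ (N' : Submodule ℤ_[2] N) (R' : Submodule ℤ_[2] R), (∀ g ∈ P, ∀ y ∈ N', ν g y ∈ N') ∧
      (∀ g ∈ P, ∀ y ∈ R', μ g y ∈ R') ∧ S ≤ (part V N').prod R' ∧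
      ∃ r : ℕ, ∀ s ∈ (part V N').prod R', (2 : ℤ_[2]) ^ r • s ∈ S := by
  let U : Submodule ℤ_[2] (V ⊗[ℤ_[2]] N) := S.comap (LinearMap.inl ℤ_[2] (V ⊗[ℤ_[2]] N) R)
  have hUm : ∀ u, u ∈ U ↔ (u, (0 : R)) ∈ S := fun u => Iff.rfl
  have hU : Stb ρ ν P U := by
    intro g hg u hu
    rw [hUm] at hu ⊢
    have h1 := hS g hg _ hu
    rwa [map_zero] at h1
  have hap' : Approx ρ ν β P := by
    obtain ⟨j, hj⟩ := hap
    exact ⟨j, fun α hα hα1 n => by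
      obtain ⟨T, hT, h1, h2, -⟩ := hj α hα hα1 n
      exact ⟨T, hT, h1, h2⟩⟩
  have hfst : ∀ s ∈ S, s.1 ∈ part V (low U) := by
    intro s hs
    obtain ⟨t, ht⟩ := fix_prod ρ ν β hsym hnd h3 μ hap hS (w := s.1) (y := s.2) fun g hg =>
      S.sub_mem (hS g hg s hs) hs
    have h6 : (2 : ℤ_[2]) ^ t • (s.1, (0 : R)) = ((2 : ℤ_[2]) ^ t • s.1, (0 : R)) := by
      rw [Prod.smul_mk, smul_zero]
    rw [h6, ← hUm] at ht
    have h7 := le_part ρ ν β hsym hnd h3 hap' hU ht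
    rw [mem_part] at h7 ⊢
    intro f
    obtain ⟨c, hc, h8⟩ := h7 f
    refine ⟨c * (2 : ℤ_[2]) ^ t, mul_ne_zero hc (pow_ne_zero _ two_ne_zero), fun x => ?_⟩
    have h9 := h8 x
    rw [map_smul, TensorProduct.tmul_smul, smul_smul] at h9
    exact h9
  obtain ⟨r, hr⟩ := low_part U
  refine ⟨low U, S.map (LinearMap.snd ℤ_[2] (V ⊗[ℤ_[2]] N) R), low_stable ρ ν hU, ?_, ?_, r, ?_⟩
  · rintro g hg _ ⟨s, hs, rfl⟩
    exact ⟨_, hS g hg s hs, rfl⟩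
  · intro s hs
    exact ⟨hfst s hs, ⟨s, hs, rfl⟩⟩
  · rintro ⟨u, _⟩ ⟨hu, s, hs, rfl⟩
    have h10 := (hUm _).1 (hr u hu)
    have h11 := (hUm _).1 (hr s.1 (hfst s hs))
    have h12 : (2 : ℤ_[2]) ^ r • (u, s.2) = ((2 : ℤ_[2]) ^ r • u, (0 : R)) +
        ((2 : ℤ_[2]) ^ r • s - ((2 : ℤ_[2]) ^ r • s.1, (0 : R))) := by
      refine Prod.ext ?_ ?_
      · show (2 : ℤ_[2]) ^ r • u = (2 : ℤ_[2]) ^ r • u +
          ((2 : ℤ_[2]) ^ r • s.1 - (2 : ℤ_[2]) ^ r • s.1)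
        rw [sub_self, add_zero]
      · show (2 : ℤ_[2]) ^ r • s.2 = (0 : R) + ((2 : ℤ_[2]) ^ r • s.2 - 0)
        rw [sub_zero, zero_add]
    show (2 : ℤ_[2]) ^ r • (u, s.2) ∈ S
    rw [h12]
    exact S.add_mem h10 (S.sub_mem (S.smul_mem _ hs) h11)

end fix

end Pool.Agent.Q45.SM
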