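import Pool.Agent.Q45.SM.Alg
import Mathlib.RingTheory.Filtration

/-!
# Stable submodules of a tensor product with any representation
-/

set_option autoImplicit false
set_option linter.all false

open Module TensorProduct
open scoped Classical

namespace Pool.Agent.Q45.SM

section closed

variable {X : Type} [AddCommGroup X] [Module ℤ_[2] X] [Module.Finite ℤ_[2] X]

/-- A submodule is closed. -/
theorem mem_of_approx (U : Submodule ℤ_[2] X) (w : X)
    (h : ∀ n : ℕ, ∃ u ∈ U, ∃ x, w = u + (2 : ℤ_[2]) ^ n • x) : w ∈ U := by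
  have h1 : (Submodule.Quotient.mk w : X ⧸ U) ∈
      (⨅ i : ℕ, (IsLocalRing.maximalIdeal ℤ_[2]) ^ i • (⊤ : Submodule ℤ_[2] (X ⧸ U))) := by
    rw [Submodule.mem_iInf]
    intro n
    obtain ⟨u, hu, x, hx⟩ := h n
    have h2 : (Submodule.Quotient.mk w : X ⧸ U) =
        (2 : ℤ_[2]) ^ n • (Submodule.Quotient.mk x : X ⧸ U) := by
      rw [hx, Submodule.Quotient.mk_add, (Submodule.Quotient.mk_eq_zero U).2 hu, zero_add]
      rfl
    rw [h2]
    refine Submodule.smul_mem_smul (Ideal.pow_mem_pow ?_ n) Submodule.mem_top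
    rw [IsLocalRing.mem_maximalIdeal, mem_nonunits_iff]
    have h3 := PadicInt.p_nonunit (p := 2)
    simpa using h3
  rw [Ideal.iInf_pow_smul_eq_bot_of_isLocalRing _ (IsLocalRing.maximalIdeal.isMaximal ℤ_[2]).ne_top,
    Submodule.mem_bot] at h1
  exact (Submodule.Quotient.mk_eq_zero U).1 h1

end closed

variable {V N : Type} [AddCommGroup V] [Module ℤ_[2] V] [Module.Finite ℤ_[2] V]
  [Module.Free ℤ_[2] V] [AddCommGroup N] [Module ℤ_[2] N] [Module.Finite ℤ_[2] N]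
  [Module.Free ℤ_[2] N]

/-- The image of `V ⊗ N'` in `V ⊗ N`. -/
noncomputable def part (V : Type) [AddCommGroup V] [Module ℤ_[2] V] (N' : Submodule ℤ_[2] N) :
    Submodule ℤ_[2] (V ⊗[ℤ_[2]] N) :=
  Submodule.span ℤ_[2] {u | ∃ x : V, ∃ y ∈ N', u = x ⊗ₜ[ℤ_[2]] y}

/-- The contraction with a linear form. -/
noncomputable def con (f : V →ₗ[ℤ_[2]] ℤ_[2]) : V ⊗[ℤ_[2]] N →ₗ[ℤ_[2]] N :=
  (TensorProduct.lid ℤ_[2] N).toLinearMap.comp (LinearMap.rTensor N f)

theorem con_tmul (f : V →ₗ[ℤ_[2]] ℤ_[2]) (x : V) (y : N) : con f (x ⊗ₜ[ℤ_[2]] y) = f x • y := by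
  unfold con
  rw [LinearMap.comp_apply, LinearMap.rTensor_tmul]
  exact TensorProduct.lid_tmul y (f x)

/-- The operator `φ ⊗ 1`. -/
noncomputable def op (φ : End ℤ_[2] V) : V ⊗[ℤ_[2]] N →ₗ[ℤ_[2]] V ⊗[ℤ_[2]] N :=
  TensorProduct.map φ LinearMap.id

theorem op_tmul (φ : End ℤ_[2] V) (x : V) (y : N) : op φ (x ⊗ₜ[ℤ_[2]] y) = φ x ⊗ₜ[ℤ_[2]] y := rfl

theorem op_scalar (c : ℤ_[2]) (u : V ⊗[ℤ_[2]] N) :
    op (algebraMap ℤ_[2] (End ℤ_[2] V) c) u = c • u := by
  induction u using TensorProduct.induction_on with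
  | zero => rw [map_zero, smul_zero]
  | tmul x y => rfl
  | add a b ha hb => rw [map_add, ha, hb, smul_add]

theorem op_smulRight (f : V →ₗ[ℤ_[2]] ℤ_[2]) (x : V) (u : V ⊗[ℤ_[2]] N) :
    op (f.smulRight x) u = x ⊗ₜ[ℤ_[2]] (con f u) := by
  induction u using TensorProduct.induction_on with
  | zero => rw [map_zero, map_zero, TensorProduct.tmul_zero]
  | tmul x' y =>
    rw [op_tmul, con_tmul, TensorProduct.tmul_smul, LinearMap.smulRight_apply,
      TensorProduct.smul_tmul']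
  | add a b ha hb => rw [map_add, map_add, TensorProduct.tmul_add, ha, hb]

/-- The expansion in a basis. -/
theorem expand {κ : Type} [Fintype κ] (b : Basis κ ℤ_[2] V) (u : V ⊗[ℤ_[2]] N) :
    u = ∑ i, b i ⊗ₜ[ℤ_[2]] con (b.coord i) u := by
  induction u using TensorProduct.induction_on with
  | zero => simp only [map_zero, TensorProduct.tmul_zero, Finset.sum_const_zero]
  | tmul x y =>
    simp only [con_tmul, Basis.coord_apply]
    conv_lhs => rw [← b.sum_repr x, TensorProduct.sum_tmul]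
    refine Finset.sum_congr rfl fun i _ => ?_
    rw [TensorProduct.tmul_smul, TensorProduct.smul_tmul']
  | add a b ha hb =>
    simp only [map_add, TensorProduct.tmul_add, Finset.sum_add_distrib]
    rw [← ha, ← hb]

theorem con_part (N' : Submodule ℤ_[2] N) (f : V →ₗ[ℤ_[2]] ℤ_[2]) {u : V ⊗[ℤ_[2]] N}
    (hu : u ∈ part V N') : con f u ∈ N' := by
  refine Submodule.span_induction ?_ ?_ ?_ ?_ hu
  · rintro _ ⟨x, y, hy, rfl⟩
    rw [con_tmul]
    exact N'.smul_mem _ hy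
  · rw [map_zero]
    exact N'.zero_mem
  · intro x y _ _ hx hy
    rw [map_add]
    exact N'.add_mem hx hy
  · intro c x _ hx
    rw [map_smul]
    exact N'.smul_mem _ hx

theorem mem_part {N' : Submodule ℤ_[2] N} {u : V ⊗[ℤ_[2]] N} :
    u ∈ part V N' ↔ ∀ f : V →ₗ[ℤ_[2]] ℤ_[2], con f u ∈ N' := by
  constructor
  · intro h f
    exact con_part N' f h
  · intro h
    rw [expand (Module.finBasis ℤ_[2] V) u]
    exact Submodule.sum_mem _ fun i _ => Submodule.subset_span ⟨_, _, h _, rfl⟩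

/-- The submodule of `N` which belongs to `U`. -/
def low (U : Submodule ℤ_[2] (V ⊗[ℤ_[2]] N)) : Submodule ℤ_[2] N where
  carrier := {y | ∃ c : ℤ_[2], c ≠ 0 ∧ ∀ x : V, c • (x ⊗ₜ[ℤ_[2]] y) ∈ U}
  add_mem' := by
    rintro a b ⟨c, hc, h⟩ ⟨c', hc', h'⟩
    refine ⟨c * c', mul_ne_zero hc hc', fun x => ?_⟩
    have h1 : (c * c') • (x ⊗ₜ[ℤ_[2]] (a + b)) =
        c' • (c • (x ⊗ₜ[ℤ_[2]] a)) + c • (c' • (x ⊗ₜ[ℤ_[2]] b)) := by
      rw [TensorProduct.tmul_add, smul_add, smul_smul, smul_smul, mul_comm c c']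
    rw [h1]
    exact U.add_mem (U.smul_mem _ (h x)) (U.smul_mem _ (h' x))
  zero_mem' := ⟨1, one_ne_zero, fun x => by rw [TensorProduct.tmul_zero, smul_zero]; exact U.zero_mem⟩
  smul_mem' := by
    rintro a y ⟨c, hc, h⟩
    refine ⟨c, hc, fun x => ?_⟩
    rw [TensorProduct.tmul_smul, smul_comm]
    exact U.smul_mem _ (h x)

theorem mem_low {U : Submodule ℤ_[2] (V ⊗[ℤ_[2]] N)} {y : N} :
    y ∈ low U ↔ ∃ c : ℤ_[2], c ≠ 0 ∧ ∀ x : V, c • (x ⊗ₜ[ℤ_[2]] y) ∈ U := Iff.rfl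

/-- The uniform constant. -/
theorem low_part (U : Submodule ℤ_[2] (V ⊗[ℤ_[2]] N)) :
    ∃ r : ℕ, ∀ u ∈ part V (low U), (2 : ℤ_[2]) ^ r • u ∈ U := by
  obtain ⟨s, hs⟩ := (IsNoetherian.noetherian (low U) : (low U).FG)
  have h1 : ∀ y ∈ s, ∃ c : ℤ_[2], c ≠ 0 ∧ ∀ x : V, c • (x ⊗ₜ[ℤ_[2]] y) ∈ U := fun y hy => by
    have h2 : y ∈ low U := by
      rw [← hs]
      exact Submodule.subset_span hy
    exact h2
  choose! c hc hcU using h1
  have hne : (∏ y ∈ s, c y) ≠ 0 := Finset.prod_ne_zero_iff.2 hc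
  obtain ⟨a, r, hr⟩ := Pool.Agent.Q45.RD.exists_unit_pow hne
  refine ⟨r, fun u hu => ?_⟩
  refine Submodule.span_induction ?_ ?_ ?_ ?_ hu
  · rintro _ ⟨x, y, hy, rfl⟩
    rw [← hs] at hy
    refine Submodule.span_induction (p := fun y _ => (2 : ℤ_[2]) ^ r • (x ⊗ₜ[ℤ_[2]] y) ∈ U)
      ?_ ?_ ?_ ?_ hy
    · intro y hy
      obtain ⟨d, hd⟩ := Finset.dvd_prod_of_mem c hy
      rw [← hr, hd, mul_comm (c y) d, mul_assoc, mul_comm (c y) a, ← mul_assoc, mul_smul]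
      exact U.smul_mem _ (hcU y hy x)
    · rw [TensorProduct.tmul_zero, smul_zero]
      exact U.zero_mem
    · intro y z _ _ hy hz
      rw [TensorProduct.tmul_add, smul_add]
      exact U.add_mem hy hz
    · intro d y _ hy
      rw [TensorProduct.tmul_smul, smul_comm]
      exact U.smul_mem _ hy
  · rw [smul_zero]
    exact U.zero_mem
  · intro y z _ _ hy hz
    rw [smul_add]
    exact U.add_mem hy hz
  · intro d y _ hy
    rw [smul_comm]
    exact U.smul_mem _ hy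

section group

variable {G : Type} [Group G] (ρ : G →* End ℤ_[2] V) (ν : G →* End ℤ_[2] N)

/-- The approximation of the isometries `α`, with the trivial action on `N`. -/
def Approx (β : V →ₗ[ℤ_[2]] V →ₗ[ℤ_[2]] ℤ_[2]) (P : Subgroup G) : Prop :=
  ∃ j : ℕ, ∀ α : V ≃ₗ[ℤ_[2]] V, (∀ x y, β (α x) (α y) = β x y) →
    (∀ m, ∃ m', α m - m = (2 : ℤ_[2]) ^ j • m') →
    ∀ n, ∃ T ∈ P, (∀ m, ∃ m', ρ T m - α m = (2 : ℤ_[2]) ^ n • m') ∧
      ∀ y, ∃ z, ν T y - y = (2 : ℤ_[2]) ^ n • z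

/-- A stable submodule. -/
def Stb (P : Subgroup G) (U : Submodule ℤ_[2] (V ⊗[ℤ_[2]] N)) : Prop :=
  ∀ g ∈ P, ∀ u ∈ U, TensorProduct.map (ρ g) (ν g) u ∈ U

theorem close_op {n : ℕ} {T : G} {α : V →ₗ[ℤ_[2]] V}
    (h1 : ∀ m, ∃ m', ρ T m - α m = (2 : ℤ_[2]) ^ n • m')
    (h2 : ∀ y, ∃ z, ν T y - y = (2 : ℤ_[2]) ^ n • z) (u : V ⊗[ℤ_[2]] N) :
    ∃ w, TensorProduct.map (ρ T) (ν T) u - op α u = (2 : ℤ_[2]) ^ n • w := by
  induction u using TensorProduct.induction_on with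
  | zero => exact ⟨0, by rw [map_zero, map_zero, sub_zero, smul_zero]⟩
  | tmul x y =>
    obtain ⟨m', hm'⟩ := h1 x
    obtain ⟨z, hz⟩ := h2 y
    refine ⟨m' ⊗ₜ[ℤ_[2]] ν T y + α x ⊗ₜ[ℤ_[2]] z, ?_⟩
    rw [TensorProduct.map_tmul, op_tmul, smul_add, TensorProduct.smul_tmul', ← hm',
      ← TensorProduct.tmul_smul, ← hz, TensorProduct.sub_tmul, TensorProduct.tmul_sub]
    abel
  | add a b ha hb =>
    obtain ⟨w, hw⟩ := ha
    obtain ⟨w', hw'⟩ := hb
    refine ⟨w + w', ?_⟩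
    rw [map_add, map_add, smul_add, ← hw, ← hw']
    abel

variable (β : V →ₗ[ℤ_[2]] V →ₗ[ℤ_[2]] ℤ_[2]) (hsym : ∀ x y, β x y = β y x)
  (hnd : ∀ x, (∀ y, β x y = 0) → x = 0) (h3 : 3 ≤ finrank ℤ_[2] V) {P : Subgroup G}

include hsym hnd h3

/-- All the operators up to constants preserve a stable submodule. -/
theorem op_mem (hap : Approx ρ ν β P) {U : Submodule ℤ_[2] (V ⊗[ℤ_[2]] N)} (hU : Stb ρ ν P U)
    (φ : End ℤ_[2] V) : ∃ c : ℤ_[2], c ≠ 0 ∧ ∀ u ∈ U, c • op φ u ∈ U := by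
  obtain ⟨j, hj⟩ := hap
  let A : Subalgebra ℤ_[2] (End ℤ_[2] V) :=
    { carrier := {φ | ∀ u ∈ U, op φ u ∈ U}
      mul_mem' := by
        intro a b ha hb u hu
        have h1 : op (a * b) u = op a (op b u) := by
          unfold op
          rw [← LinearMap.comp_apply, ← TensorProduct.map_comp]
          rfl
        rw [h1]
        exact ha _ (hb _ hu)
      add_mem' := by
        intro a b ha hb u hu
        have h1 : op (a + b) u = op a u + op b u := by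
          unfold op
          rw [TensorProduct.map_add_left]
          rfl
        rw [h1]
        exact U.add_mem (ha _ hu) (hb _ hu)
      algebraMap_mem' := by
        intro c u hu
        rw [op_scalar]
        exact U.smul_mem _ hu }
  obtain ⟨c, hc, h⟩ := sat_all β hsym hnd h3 (j := j) A (fun α hα hα1 u hu => by
    refine mem_of_approx U _ fun n => ?_
    obtain ⟨T, hT, h1, h2⟩ := hj α hα hα1 n
    obtain ⟨w, hw⟩ := close_op ρ ν (α := (α : V →ₗ[ℤ_[2]] V)) h1 h2 u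
    refine ⟨_, hU T hT u hu, -w, ?_⟩
    rw [smul_neg, ← hw]
    abel) φ
  refine ⟨c, hc, fun u hu => ?_⟩
  have h1 := h u hu
  have h2 : op (c • φ) u = c • op φ u := by
    unfold op
    rw [TensorProduct.map_smul_left]
    rfl
  rwa [h2] at h1

/-- A stable submodule is contained in the part which belongs to it. -/
theorem le_part (hap : Approx ρ ν β P) {U : Submodule ℤ_[2] (V ⊗[ℤ_[2]] N)}
    (hU : Stb ρ ν P U) : U ≤ part V (low U) := by
  intro u hu
  rw [mem_part]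
  intro f
  let b := Module.finBasis ℤ_[2] V
  have h1 : ∀ i, ∃ c : ℤ_[2], c ≠ 0 ∧ ∀ u ∈ U, c • op (f.smulRight (b i)) u ∈ U := fun i =>
    op_mem ρ ν β hsym hnd h3 hap hU _
  choose c hc hcU using h1
  refine ⟨∏ i, c i, Finset.prod_ne_zero_iff.2 fun i _ => hc i, fun x => ?_⟩
  rw [← b.sum_repr x, TensorProduct.sum_tmul, Finset.smul_sum]
  refine Submodule.sum_mem _ fun i _ => ?_
  obtain ⟨d, hd⟩ := Finset.dvd_prod_of_mem c (Finset.mem_univ i)
  have h2 := hcU i u hu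
  rw [op_smulRight] at h2
  have h4 : (∏ i, c i) • ((b.repr x i • b i) ⊗ₜ[ℤ_[2]] con f u) =
      (d * b.repr x i) • (c i • (b i ⊗ₜ[ℤ_[2]] con f u)) := by
    rw [hd, ← TensorProduct.smul_tmul', smul_smul, smul_smul]
    congr 1
    ring
  rw [h4]
  exact U.smul_mem _ h2

omit hsym hnd h3

/-- The submodule which belongs to a stable submodule is stable. -/
theorem low_stable {U : Submodule ℤ_[2] (V ⊗[ℤ_[2]] N)} (hU : Stb ρ ν P U) :
    ∀ g ∈ P, ∀ y ∈ low U, ν g y ∈ low U := by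
  rintro g hg y ⟨c, hc, h⟩
  refine ⟨c, hc, fun x => ?_⟩
  have h1 := hU g hg _ (h (ρ g⁻¹ x))
  rw [map_smul, TensorProduct.map_tmul, ← Module.End.mul_apply, ← map_mul, mul_inv_cancel,
    map_one] at h1
  exact h1

theorem part_stable {N' : Submodule ℤ_[2] N} (h : ∀ g ∈ P, ∀ y ∈ N', ν g y ∈ N') :
    Stb ρ ν P (part V N') := by
  intro g hg u hu
  refine Submodule.span_induction ?_ ?_ ?_ ?_ hu
  · rintro _ ⟨x, y, hy, rfl⟩
    rw [TensorProduct.map_tmul]
    exact Submodule.subset_span ⟨_, _, h g hg y hy, rfl⟩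
  · rw [map_zero]
    exact Submodule.zero_mem _
  · intro a b _ _ ha hb
    rw [map_add]
    exact Submodule.add_mem _ ha hb
  · intro c a _ ha
    rw [map_smul]
    exact Submodule.smul_mem _ _ ha

end group

end Pool.Agent.Q45.SM
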